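import Pool.Agent.WAP.K3
import Pool.Agent.Helper2_WAP.Main

/-!
# Rational points of a K3 surface over `Q(i)` are dense in its adelic points

`X` is the smooth projective K3 surface `u ^ 2 * F4(t0, t1) = v ^ 2 * F4(x0, x1)`,
`F4(a, b) = a ^ 3 * b - a * b ^ 3`, in the `P ^ 1`-bundle `P(O(2,0) + O(0,2))` over `P ^ 1 × P ^ 1`
(file `Pool/Agent/WAP/K3.lean`), the minimal desingularization of
`y ^ 2 = (x ^ 3 - x) * (t ^ 3 - t)`, that is the Kummer surface of `E × E`, `E : Y ^ 2 = X ^ 3 - X`.

Theorem.  Let `K` be a fraction field of `Z[i]` (so `K = Q(i)`).  The image of `X(K)` in the product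
of the `X(K_v)`, `v` running over ALL finite places of `K`, and of `X(C)` is dense.  As `Q(i)` has
only one infinite place, the product is the space of adelic points of `X`.
So `X(K)` is dense in `X(A_K)`, and in the Brauer-Manin set, which contains `X(K)` and is closed:
the assertion of Q1 holds for this K3 surface.
-/

namespace Pool.Agent.Results.MP_ff4683_nt.K3WeakApproximation

open Pool.Agent.WAP IsDedekindDomain

/-- The `K`-rational points of the smooth projective K3 surface `X` are dense in the product of
its `v`-adic points over all finite places `v` of `K = Q(i)` and its complex points. -/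
theorem result (K : Type) [Field K] [Algebra GaussianInt K] [IsFractionRing GaussianInt K]
    (σ : K →+* ℂ) :
    DenseRange (fun z : XP K =>
      (((fun v : HeightOneSpectrum GaussianInt =>
        XP.map (algebraMap K (v.adicCompletion K)) z), XP.map σ z) :
        (∀ v : HeightOneSpectrum GaussianInt, XP (v.adicCompletion K)) × XP ℂ)) :=
  Main.prj K σ

end Pool.Agent.Results.MP_ff4683_nt.K3WeakApproximation
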