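import Pool.Agent.WAR.K3
import Pool.Agent.Helper32_WAR.PRJF
import Pool.Agent.Helper26_WAR.CYC
import Pool.Agent.Helper26_WAR.SMP

/-!
# Rational points of the Kummer surfaces of `E × E` over `Q`

`a`, `b` are integers, `a, b, a - b ≠ 0`, `E : Y ^ 2 = X (X - a) (X - b)`, and `X` is the smooth
projective K3 surface `u ^ 2 * F4(t0, t1) = v ^ 2 * F4(x0, x1)`,
`F4(x0, x1) = x0 * x1 * (x0 - a * x1) * (x0 - b * x1)`, in the `P ^ 1`-bundle `P(O(2,0) + O(0,2))`
over `P ^ 1 × P ^ 1` (file `Pool/Agent/WAR/K3.lean`): the minimal desingularization of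
`y ^ 2 = x (x - a) (x - b) * t (t - a) (t - b)`, that is the Kummer surface of `E × E`.
Every elliptic curve over `Q` whose 2-torsion points are rational is such an `E`.

A pair `(P, Q)` of points of a quadratic twist `E^δ` of `E` gives the point
`([X(P) : δ], [X(Q) : δ], [Y(P) : Y(Q)])` of `X`.

Theorem.  Let `S` be a set of primes `p` which do not divide `2 a b (a - b)` (so `E` has good
reduction at `p`), and `C` the set of all such primes for which the group `E^δ(F_p) / E[2]` is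
cyclic for every quadratic twist `E^δ` of `E` over `F_p`.  The closure of `X(Q)` in
`X(R) × ∏_{p ∈ S} X(Q_p)` contains all points whose component at each prime `p` of `S` outside `C`
lies in the closure of the set `CycPt` of the points given by pairs `(P, Q)` such that
`c P + e Q - T` reduces to the origin for some coprime integers `c, e` and some `T` in `E[2]`
(for a unit `δ` this means: the reductions of `P` and `Q` generate a cyclic subgroup of
`E^δ(F_p) / E[2]`).
For `S = C` this says that `X(Q)` is dense in `X(R) × ∏_{p ∈ C} X(Q_p)`.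
`C` contains each of the primes `3, 5, 7, 11` which does not divide `a b (a - b)`.
For `E : Y ^ 2 = X ^ 3 - X` (`a = 1`, `b = -1`) the set `C` contains all primes `p` with
`p = 3 mod 4`.
-/

namespace Pool.Agent.Results.MP_ff4683_nt.KummerFamilyOverQ

open Pool.Agent.WAR

/-- The curve `E^δ : Y ^ 2 = X (X - δ a) (X - δ b)` over the field `F`: for `δ ≠ 0` the quadratic
twist of `E : Y ^ 2 = X (X - a) (X - b)` by `δ`. -/
def twist (a b : ℤ) {F : Type} [Field F] (δ : F) : WeierstrassCurve.Affine F :=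
  ⟨0, -(δ * ((a : F) + (b : F))), 0, δ ^ 2 * ((a : F) * (b : F)), 0⟩

attribute [local instance] primesFact

/-- `Unr a b p`: the prime `p` does not divide `2 a b (a - b)`. -/
structure Unr (a b : ℤ) (p : Nat.Primes) : Prop where
  odd : (p : ℕ) ≠ 2
  good : ¬ ((p : ℕ) : ℤ) ∣ a * b * (a - b)

/-- `Cycl a b p`: for every `δ ≠ 0` in the field with `p` elements the group `E^δ(F_p)` modulo its
2-torsion is cyclic, that is generated by the class of some point `g`. -/
def Cycl (a b : ℤ) (p : Nat.Primes) : Prop :=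
  ∀ δ : ZMod (p : ℕ), δ ≠ 0 →
    ∃ g : (twist a b δ).Point, ∀ P : (twist a b δ).Point, ∃ k : ℤ, (2 : ℤ) • (P - k • g) = 0

/-- `NearO P`: the point `P` of `E^δ` is the origin, or the absolute value of `X(P) / δ` is larger
than 1.  (For the field of `p`-adic numbers and a unit `δ`: `P` reduces to the origin modulo `p`.) -/
def NearO {a b : ℤ} {F : Type} [NormedField F] {δ : F} : (twist a b δ).Point → Prop
  | .zero => True
  | .some X _ _ => 1 < ‖X / δ‖

open Classical in
/-- The set of the points `([X1 : δ], [X2 : δ], [Y1 : Y2])` of `X` with `δ ≠ 0`, given by two points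
`P = (X1, Y1)`, `Q = (X2, Y2)` of `E^δ` with `Y1, Y2 ≠ 0` such that `c P + e Q - T` is `NearO` for
some coprime integers `c`, `e` and some point `T` with `T + T = 0`. -/
def CycPt (a b : ℤ) (F : Type) [NormedField F] : Set (XP a b F) :=
  {z | ∃ (δ X1 Y1 X2 Y2 : F) (h1 : (twist a b δ).Nonsingular X1 Y1)
    (h2 : (twist a b δ).Nonsingular X2 Y2) (T : (twist a b δ).Point) (c e : ℤ) (q : XC a b F),
    δ ≠ 0 ∧ Y1 ≠ 0 ∧ Y2 ≠ 0 ∧ q.1 = ((X1, δ), (X2, δ), (Y1, Y2)) ∧
    z = Quotient.mk (xcSetoid a b F) q ∧ IsCoprime c e ∧ T + T = 0 ∧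
    NearO (c • WeierstrassCurve.Affine.Point.some X1 Y1 h1 +
      e • WeierstrassCurve.Affine.Point.some X2 Y2 h2 - T)}

theorem cycPt_subset (a b : ℤ) (ha : a ≠ 0) (hb : b ≠ 0) (hab : a ≠ b) {F : Type} [NormedField F]
    {ϖ : ℤ} (hF : @IsLoc ⟨a, b, ha, hb, hab⟩ F _ ϖ) :
    CycPt a b F ⊆ @H32F.UnX ⟨a, b, ha, hb, hab⟩ F _ := by
  letI : Par := ⟨a, b, ha, hb, hab⟩
  haveI : Gd F := hF.gd
  rintro _ ⟨δ, X1, Y1, X2, Y2, h1, h2, T, c, e, q, hδ, hY1, hY2, hq, rfl, hce, hT, hN⟩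
  have k1 : @kum _ F _ δ (WeierstrassCurve.Affine.Point.some X1 Y1 h1)
      (WeierstrassCurve.Affine.Point.some X2 Y2 h2) = (X1 / δ, X2 / δ, Y1 * Y2 / δ ^ 3) := rfl
  have e1 : Y1 ^ 2 = X1 * (X1 - δ * (a : F)) * (X1 - δ * (b : F)) := by
    have := (WeierstrassCurve.Affine.equation_iff ..).1 h1.1
    simp only [twist] at this
    linear_combination this
  have e2 : Y2 ^ 2 = X2 * (X2 - δ * (a : F)) * (X2 - δ * (b : F)) := by
    have := (WeierstrassCurve.Affine.equation_iff ..).1 h2.1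
    simp only [twist] at this
    linear_combination this
  have c1 : cub (X1 / δ) = Y1 ^ 2 / δ ^ 3 := by
    rw [e1]
    show X1 / δ * (X1 / δ - (a : F)) * (X1 / δ - (b : F)) = _
    field_simp
  have c2 : cub (X2 / δ) = Y2 ^ 2 / δ ^ 3 := by
    rw [e2]
    show X2 / δ * (X2 / δ - (a : F)) * (X2 / δ - (b : F)) = _
    field_simp
  have hU : OnU (X1 / δ, X2 / δ, Y1 * Y2 / δ ^ 3) := by
    refine ⟨?_, ?_⟩
    · show (Y1 * Y2 / δ ^ 3) ^ 2 = cub (X1 / δ) * cub (X2 / δ)
      rw [c1, c2]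
      field_simp
    · exact div_ne_zero (mul_ne_zero hY1 hY2) (pow_ne_zero _ hδ)
  refine ⟨⟨_, hU⟩, ?_, ?_⟩
  · show UnP (X1 / δ, X2 / δ, Y1 * Y2 / δ ^ 3)
    refine ⟨δ, .some X1 Y1 h1, .some X2 Y2 h2, hδ, k1.symm, c, e, T, hce,
      H19.twt F hF.two_ne δ hδ T hT, ?_⟩
    have key : ∀ R : (twist a b δ).Point, NearO R → @Big _ F _ δ 1 R := by
      intro R hR
      rcases R with _ | ⟨X, Y, h⟩
      · exact Or.inl rfl
      · exact Or.inr hR
    exact key _ hN
  · show Quotient.mk (xcSetoid a b F) _ = Quotient.mk (xcSetoid a b F) q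
    apply Quotient.sound
    refine ⟨δ, δ, δ / Y2, hδ, hδ, div_ne_zero hδ hY2, ?_, ?_, ?_⟩
    · rw [hq]
      show (X1, δ) = (δ * (X1 / δ), δ * 1)
      rw [mul_div_cancel₀ _ hδ, mul_one]
    · rw [hq]
      show (X2, δ) = (δ * (X2 / δ), δ * 1)
      rw [mul_div_cancel₀ _ hδ, mul_one]
    · rw [hq]
      show (Y1, Y2) = (δ / Y2 * δ ^ 2 * (Y1 * Y2 / δ ^ 3), δ / Y2 * δ ^ 2 * cub (X2 / δ))
      rw [c2]
      refine Prod.ext ?_ ?_
      · show Y1 = δ / Y2 * δ ^ 2 * (Y1 * Y2 / δ ^ 3)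
        field_simp
      · show Y2 = δ / Y2 * δ ^ 2 * (Y2 ^ 2 / δ ^ 3)
        field_simp

/-- (1) Let `a, b` be integers with `a, b, a - b ≠ 0` and `S` a set of primes which do not divide
`2 a b (a - b)`.  The closure of the rational points of the Kummer surface `X` of `E × E`,
`E : Y ^ 2 = X (X - a) (X - b)`, in the product of its `p`-adic points over all `p` in `S` and its
real points contains every point whose component at each prime `p` in `S` without `Cycl a b p`
lies in the closure of `CycPt`.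
(2) The primes `p = 3, 5, 7, 11` which do not divide `a b (a - b)` satisfy `Cycl a b p`.
(3) For `E : Y ^ 2 = X ^ 3 - X` all primes `p` with `p = 3 mod 4` satisfy it. -/
theorem result :
    (∀ a b : ℤ, a ≠ 0 → b ≠ 0 → a ≠ b → ∀ S : Set Nat.Primes, (∀ p ∈ S, Unr a b p) →
      ∀ (x : ∀ p : S, XP a b ℚ_[((p.1 : Nat.Primes) : ℕ)]) (xR : XP a b ℝ),
      (∀ p : S, Cycl a b p.1 ∨ x p ∈ closure (CycPt a b ℚ_[((p.1 : Nat.Primes) : ℕ)])) →
      ((x, xR) : (∀ p : S, XP a b ℚ_[((p.1 : Nat.Primes) : ℕ)]) × XP a b ℝ) ∈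
        closure (Set.range (fun z : XP a b ℚ =>
        (((fun p : S => XP.map (algebraMap ℚ ℚ_[((p.1 : Nat.Primes) : ℕ)]) z),
          XP.map (algebraMap ℚ ℝ) z) :
          (∀ p : S, XP a b ℚ_[((p.1 : Nat.Primes) : ℕ)]) × XP a b ℝ)))) ∧
    (∀ a b : ℤ, a ≠ 0 → b ≠ 0 → a ≠ b → ∀ p : Nat.Primes, Unr a b p →
      ((p : ℕ) = 3 ∨ (p : ℕ) = 5 ∨ (p : ℕ) = 7 ∨ (p : ℕ) = 11) → Cycl a b p) ∧
    (∀ p : Nat.Primes, (p : ℕ) % 4 = 3 → Unr 1 (-1) p ∧ Cycl 1 (-1) p) := by
  refine ⟨?_, ?_, ?_⟩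
  · intro a b ha hb hab S hS x xR hx
    letI : Par := ⟨a, b, ha, hb, hab⟩
    have hgp : ∀ p ∈ S, GoodP (p : ℕ) := by
      intro p hp
      have hp0 : Unr a b p := hS p hp
      refine ⟨p.2, hp0.odd, ?_, ?_, ?_⟩
      · exact fun h => hp0.good ((h.mul_right b).mul_right (a - b))
      · exact fun h => hp0.good ((h.mul_left a).mul_right (a - b))
      · exact fun h => hp0.good (h.mul_left (a * b))
    refine H32F.prjUn S hgp x xR fun p => ?_
    rcases hx p with h | h
    · left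
      intro _ δ hδ
      exact h δ hδ
    · right
      exact closure_mono (cycPt_subset a b ha hb hab (H2.A_blo (p.1 : ℕ) (hgp p.1 p.2))) h
  · intro a b ha hb hab p hp0 hp δ hδ
    letI : Par := ⟨a, b, ha, hb, hab⟩
    refine H26S.cyc_small (p : ℕ) hp ?_ ?_ ?_ (primesFact p) δ hδ
    · exact fun h => hp0.good ((h.mul_right b).mul_right (a - b))
    · exact fun h => hp0.good ((h.mul_left a).mul_right (a - b))
    · exact fun h => hp0.good (h.mul_left (a * b))
  · intro p hp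
    refine ⟨⟨?_, ?_⟩, ?_⟩
    · intro h
      rw [h] at hp
      omega
    · intro h
      have h1 : ((p : ℕ) : ℤ) ∣ 2 := by
        rw [show (2 : ℤ) = -((1 : ℤ) * (-1) * (1 - (-1))) by norm_num]
        exact (dvd_neg.2 h)
      have h2 : (p : ℕ) ∣ 2 := by exact_mod_cast h1
      have h3 := Nat.le_of_dvd (by norm_num) h2
      have h4 := p.2.two_le
      omega
    · intro δ hδ
      exact H26.cyc34 (p : ℕ) p.2 hp (primesFact p) δ hδ

end Pool.Agent.Results.MP_ff4683_nt.KummerFamilyOverQ
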